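import Pool.Agent.H15.PB.CB

set_option autoImplicit false

/-!
A lower bound for Bohr sets in `kA - kA`, and for Bohr sets of popular elements of `kA - kA`, for
dense subsets of `ZMod N` of every density in the range where the question has content.
-/

namespace Pool.Agent.Results.MP_169871_nt.BohrTradeoff

/-- For every `k ≥ 2` there are `c, C > 0` and `l₀` such that for every `N` and all reals `K ≥ 0`
and `l ≥ l₀` with `l * log l ≤ c * log N` and `l ^ k ≤ c * (K + log l) * (log N) ^ (k - 1)` there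
is a nonempty `A ⊆ ZMod N` with `l ≤ L ≤ C * l`, `L = log (N / |A|)`, such that every Bohr set
`B(Γ, ε)` on which the number of representations `x = ∑ a i - ∑ b i`, `a i, b i ∈ A`, is positive
and at least `exp (-K) * |A| ^ (2 k) / N` satisfies, with `D = |Γ| * log (2 + 1 / ε)`, both
`c * L * log L ≤ D` and `c * L ^ k ≤ (K + log L) * D ^ (k - 1)`. -/
theorem result (k : ℕ) (hk : 2 ≤ k) :
    ∃ c : ℝ, 0 < c ∧ ∃ C : ℝ, 0 < C ∧ ∃ l₀ : ℝ, ∀ N : ℕ, 0 < N → ∀ l K : ℝ, l₀ ≤ l → 0 ≤ K →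
      l * Real.log l ≤ c * Real.log N →
      l ^ k ≤ c * (K + Real.log l) * Real.log N ^ (k - 1) →
      ∃ A : Finset (ZMod N), A.Nonempty ∧ l ≤ Real.log ((N : ℝ) / (A.card : ℝ)) ∧
        Real.log ((N : ℝ) / (A.card : ℝ)) ≤ C * l ∧
        ∀ (Γ : Finset (ZMod N)) (ε : ℝ), 0 < ε →
          (∀ x : ZMod N,
              (∀ γ ∈ Γ, |((γ * x).val : ℝ) / (N : ℝ)
                - ((round (((γ * x).val : ℝ) / (N : ℝ)) : ℤ) : ℝ)| ≤ ε) →
              0 < Set.ncard {p : (Fin k → ZMod N) × (Fin k → ZMod N) |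
                  (∀ i, p.1 i ∈ A) ∧ (∀ i, p.2 i ∈ A) ∧ x = ∑ i, p.1 i - ∑ i, p.2 i} ∧
              Real.exp (-K) * ((A.card : ℝ) ^ (2 * k) / N) ≤
                (Set.ncard {p : (Fin k → ZMod N) × (Fin k → ZMod N) |
                  (∀ i, p.1 i ∈ A) ∧ (∀ i, p.2 i ∈ A) ∧
                    x = ∑ i, p.1 i - ∑ i, p.2 i} : ℝ)) →
          c * (Real.log ((N : ℝ) / (A.card : ℝ)) * Real.log (Real.log ((N : ℝ) / (A.card : ℝ))))
            ≤ (Γ.card : ℝ) * Real.log (2 + 1 / ε) ∧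
          c * Real.log ((N : ℝ) / (A.card : ℝ)) ^ k ≤
            (K + Real.log (Real.log ((N : ℝ) / (A.card : ℝ)))) *
              ((Γ.card : ℝ) * Real.log (2 + 1 / ε)) ^ (k - 1) :=
  Pool.H15.PB.cb_main k hk

end Pool.Agent.Results.MP_169871_nt.BohrTradeoff
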