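import Pool.Agent.H84.CP.GapB
import Pool.Agent.H84.IT.SumB
import Pool.Agent.H84.IT.SumC
import Pool.Agent.H77.SZ.Rel
import Pool.Agent.H15.RB.Fin
import Pool.Agent.H15.RB.ZB

set_option autoImplicit false

/-!
# Six equivalent forms of the conclusion of Q1

For a set `S` in `Z_N` and a real `t ≥ 2` the statements

* `HasBohr S t`: `S` contains a Bohr set with at most `t` frequencies and radius at least `1 / t`;
* `HasGap S t`: `S` contains a generalised arithmetic progression of rank at most `t` with at least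
  `t ^ (-t) * N` elements;
* `HasConvex S t`: `S` contains a symmetric convex progression of dimension at most `t` with at
  least `t ^ (-t) * N` elements;
* `HasSumset S t`: `S` contains `kT - kT` for a set `T` with at least `t ^ (-t) * N` elements and
  some `k ≥ (10 t) ^ 8`;
* `HasLarge S t`: `S` contains, for some `s` in `[2, t]`, a Bohr set with ANY number of frequencies,
  radii at most `1 / (8 s)` and at least `s ^ (-t) * N` elements;
* `HasRelative S t`: `S` contains `2A - 2A` for a nonempty set `A` for which there is a set `P`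
  with `HasBohr P t` and `|A + P| ≤ exp (sqrt t) |A|`

are equivalent up to absolute constants. With `S = 2A - 2A` and `t = C log (1/α)`, `HasBohr`
is the conclusion of the question. The question is moreover equivalent to its form over the
integers (polynomial Bogolyubov-Ruzsa): if `|A + A| ≤ K |A|`, `A` a finite set of integers, then
`2A - 2A` contains a generalised arithmetic progression of rank at most `t` with at least
`t ^ (-t) * |A|` elements, `t = C log K`.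
-/

namespace Pool.Agent.Results.MP_169871_nt.ConvexProgressions

/-- `S` contains a Bohr set with at most `t` frequencies and radius at least `1 / t`. -/
def HasBohr {N : ℕ} (S : Set (ZMod N)) (t : ℝ) : Prop :=
  ∃ (Γ : Finset (ZMod N)) (ε : ℝ), (Γ.card : ℝ) ≤ t ∧ 1 / t ≤ ε ∧
    ∀ x : ZMod N,
      (∀ γ ∈ Γ,
        |((γ * x).val : ℝ) / (N : ℝ) - ((round (((γ * x).val : ℝ) / (N : ℝ)) : ℤ) : ℝ)| ≤ ε) →
      x ∈ S

/-- `S` contains a generalised arithmetic progression `{∑ m_k x_k : |m_k| ≤ n_k}` of rank `d ≤ t`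
with at least `t ^ (-t) * N` elements. -/
def HasGap {N : ℕ} (S : Set (ZMod N)) (t : ℝ) : Prop :=
  ∃ (d : ℕ) (x : Fin d → ZMod N) (n : Fin d → ℕ) (P : Set (ZMod N)), (d : ℝ) ≤ t ∧
    P = {y | ∃ m : Fin d → ℤ, (∀ k, |m k| ≤ (n k : ℤ)) ∧ y = ∑ k, (m k : ZMod N) * x k} ∧
    t ^ (-t) * (N : ℝ) ≤ (P.ncard : ℝ) ∧ P ⊆ S

/-- `S` contains a symmetric convex progression `φ (K ∩ Z^d)` (`K` a symmetric convex set in `R^d`,
`φ` a homomorphism from `Z^d` to `Z_N`) of dimension `d ≤ t` with at least `t ^ (-t) * N`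
elements. -/
def HasConvex {N : ℕ} (S : Set (ZMod N)) (t : ℝ) : Prop :=
  ∃ (d : ℕ) (K : Set (Fin d → ℝ)) (φ : (Fin d → ℤ) →+ ZMod N) (P : Set (ZMod N)), (d : ℝ) ≤ t ∧
    Convex ℝ K ∧ (∀ v ∈ K, -v ∈ K) ∧ P = {y | ∃ n : Fin d → ℤ, (fun i => (n i : ℝ)) ∈ K ∧ φ n = y} ∧
    t ^ (-t) * (N : ℝ) ≤ (P.ncard : ℝ) ∧ P ⊆ S

/-- `S` contains the iterated sumset `kT - kT` (all `a_1 + .. + a_k - b_1 - .. - b_k` with `a_i`,
`b_i` in `T`) for a set `T` with at least `t ^ (-t) * N` elements and some `k ≥ (10 t) ^ 8`. -/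
def HasSumset {N : ℕ} (S : Set (ZMod N)) (t : ℝ) : Prop :=
  ∃ (T : Finset (ZMod N)) (k : ℕ), t ^ (-t) * (N : ℝ) ≤ (T.card : ℝ) ∧ (10 * t) ^ 8 ≤ (k : ℝ) ∧
    ∀ a b : Fin k → ZMod N, (∀ i, a i ∈ T) → (∀ i, b i ∈ T) → ∑ i, a i - ∑ i, b i ∈ S

/-- `S` contains a Bohr set with any number of frequencies, radii at most `1 / (8 s)` and at least
`s ^ (-t) * N` elements, for some `s` in `[2, t]`. -/
def HasLarge {N : ℕ} (S : Set (ZMod N)) (t : ℝ) : Prop :=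
  ∃ (s : ℝ) (Γ : Finset (ZMod N)) (ε : ZMod N → ℝ) (P : Finset (ZMod N)), 2 ≤ s ∧ s ≤ t ∧
    (∀ γ ∈ Γ, ε γ ≤ 1 / (8 * s)) ∧
    (∀ x : ZMod N, x ∈ P ↔ ∀ γ ∈ Γ,
      |((γ * x).val : ℝ) / (N : ℝ) - ((round (((γ * x).val : ℝ) / (N : ℝ)) : ℤ) : ℝ)| ≤ ε γ) ∧
    s ^ (-t) * (N : ℝ) ≤ (P.card : ℝ) ∧ ∀ x ∈ P, x ∈ S

/-- `S` contains `2A - 2A` for a nonempty set `A` such that `|A + P| ≤ exp (sqrt t) |A|` for some
set `P` which contains a Bohr set with at most `t` frequencies and radius at least `1 / t`. -/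
def HasRelative {N : ℕ} (S : Set (ZMod N)) (t : ℝ) : Prop :=
  ∃ (A P : Finset (ZMod N)), A.Nonempty ∧ HasBohr (P : Set (ZMod N)) t ∧
    (((A ×ˢ P).image (fun p => p.1 + p.2)).card : ℝ) ≤ Real.exp (Real.sqrt t) * A.card ∧
    ∀ a₁ ∈ A, ∀ a₂ ∈ A, ∀ a₃ ∈ A, ∀ a₄ ∈ A, a₁ + a₂ - a₃ - a₄ ∈ S

/-- The set `S` of integers contains a generalised arithmetic progression
`{∑ m_k x_k : |m_k| ≤ n_k}` of rank `d ≤ t` with at least `t ^ (-t) * a` elements. -/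
def HasGapInt (S : Set ℤ) (a t : ℝ) : Prop :=
  ∃ (d : ℕ) (x : Fin d → ℤ) (n : Fin d → ℕ) (P : Set ℤ), (d : ℝ) ≤ t ∧
    P = {y | ∃ m : Fin d → ℤ, (∀ k, |m k| ≤ (n k : ℤ)) ∧ y = ∑ k, m k * x k} ∧
    t ^ (-t) * a ≤ (P.ncard : ℝ) ∧ P ⊆ S

/-- `2A - 2A` for a set of integers. -/
def twoAAInt (A : Finset ℤ) : Set ℤ :=
  {x | ∃ a₁ ∈ A, ∃ a₂ ∈ A, ∃ a₃ ∈ A, ∃ a₄ ∈ A, x = a₁ + a₂ - a₃ - a₄}

/-- `2A - 2A`. -/
def twoAA {N : ℕ} (A : Finset (ZMod N)) : Set (ZMod N) :=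
  {x | ∃ a₁ ∈ A, ∃ a₂ ∈ A, ∃ a₃ ∈ A, ∃ a₄ ∈ A, x = a₁ + a₂ - a₃ - a₄}

theorem hasGap_of_hasBohr {N : ℕ} (hN : 0 < N) (S : Set (ZMod N)) (t : ℝ) (ht : 2 ≤ t)
    (h : HasBohr S t) : HasGap S (26 * t) := by
  have : NeZero N := ⟨hN.ne'⟩
  obtain ⟨Γ, ε, hΓ, hε, hS⟩ := h
  have hε0 : 0 < ε := lt_of_lt_of_le (by positivity) hε
  obtain ⟨r, x, n, hr, hsub, hcard⟩ := Pool.H84.CP.gap_in_bohr Γ ε hε0
  have hr' : (r : ℝ) ≤ t + 1 := by
    have : (r : ℝ) ≤ (Γ.card : ℝ) + 1 := by exact_mod_cast hr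
    linarith
  refine ⟨r, x, n, _, by linarith, rfl, ?_, ?_⟩
  · have h1 := Pool.H84.CP.num_gap t ε ht hε Γ.card r hΓ hr'
    have h2 : (N : ℝ) ≤ (H97CP.gap x n).ncard * (26 * t) ^ (26 * t) :=
      hcard.trans (mul_le_mul_of_nonneg_left h1 (by positivity))
    rw [Real.rpow_neg (by linarith), inv_mul_le_iff₀ (by positivity), mul_comm]
    exact h2
  · intro y hy
    exact hS y (hsub y hy)

theorem hasConvex_of_hasGap {N : ℕ} (S : Set (ZMod N)) (t : ℝ) (h : HasGap S t) :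
    HasConvex S t := by
  obtain ⟨d, x, n, P, hd, hP, hcard, hPS⟩ := h
  refine ⟨d, {v | ∀ k, |v k| ≤ (n k : ℝ)},
    { toFun := fun m => ∑ k, (m k : ZMod N) * x k
      map_zero' := by simp
      map_add' := fun a b => by simp [add_mul, Finset.sum_add_distrib] }, P, hd, ?_, ?_, ?_,
    hcard, hPS⟩
  · intro v hv w hw a b ha hb hab k
    have h1 := hv k
    have h2 := hw k
    have h3 : |(a • v + b • w) k| ≤ a * |v k| + b * |w k| := by
      have : (a • v + b • w) k = a * v k + b * w k := by simp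
      rw [this]
      refine (abs_add_le _ _).trans (le_of_eq ?_)
      rw [abs_mul, abs_mul, abs_of_nonneg ha, abs_of_nonneg hb]
    have h4 : a * |v k| ≤ a * n k := mul_le_mul_of_nonneg_left h1 ha
    have h5 : b * |w k| ≤ b * n k := mul_le_mul_of_nonneg_left h2 hb
    have h6 : a * (n k : ℝ) + b * n k = n k := by rw [← add_mul, hab, one_mul]
    linarith
  · intro v hv k
    have := hv k
    simpa using this
  · rw [hP]
    ext y
    constructor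
    · rintro ⟨m, hm, rfl⟩
      refine ⟨m, fun k => ?_, rfl⟩
      show |((m k : ℤ) : ℝ)| ≤ (n k : ℝ)
      exact_mod_cast hm k
    · rintro ⟨m, hm, hy⟩
      refine ⟨m, fun k => ?_, hy.symm⟩
      have h1 : |((m k : ℤ) : ℝ)| ≤ (n k : ℝ) := hm k
      exact_mod_cast h1

theorem hasBohr_of_hasConvex {N : ℕ} (hN : 0 < N) (S : Set (ZMod N)) (t : ℝ) (ht : 2 ≤ t)
    (h : HasConvex S t) : HasBohr S (26 * t) := by
  have : NeZero N := ⟨hN.ne'⟩
  classical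
  obtain ⟨d, K, φ, P, hd, hK, hKs, hP, hcard, hPS⟩ := h
  have hfin : P.Finite := Set.toFinite P
  have hc : P.ncard = hfin.toFinset.card := Set.ncard_eq_toFinset_card P hfin
  have hN0 : (0 : ℝ) < N := by exact_mod_cast hN
  have hpos : 0 < hfin.toFinset.card := by
    rw [← hc]
    have : 0 < t ^ (-t) * (N : ℝ) := by positivity
    exact_mod_cast lt_of_lt_of_le this hcard
  have hprog : Pool.H84.CP.IsConvexProgression d hfin.toFinset := by
    refine ⟨K, φ, hK, hKs, fun x => ?_⟩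
    rw [Set.Finite.mem_toFinset, hP]
    rfl
  have hq : 2 ≤ ⌈t⌉₊ := by
    have : (2 : ℝ) ≤ (⌈t⌉₊ : ℕ) := ht.trans (Nat.le_ceil t)
    exact_mod_cast this
  have hdq : d ≤ ⌈t⌉₊ := by
    have : (d : ℝ) ≤ (⌈t⌉₊ : ℕ) := hd.trans (Nat.le_ceil t)
    exact_mod_cast this
  obtain ⟨Γ, hΓ, hsub⟩ := Pool.H84.CP.progression_contains_bohr d hfin.toFinset
    (Finset.card_pos.1 hpos) hprog ⌈t⌉₊ hq hdq
  obtain ⟨h1, h2⟩ := Pool.H84.CP.num_bohr (N := N) t ht d hfin.toFinset.card hd hpos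
    (by rw [← hc]; exact hcard)
  refine ⟨Γ, 1 / (2 * ((⌈t⌉₊ : ℕ) : ℝ)), hΓ.trans h1, h2, fun x hx => hPS ?_⟩
  have := hsub x hx
  rwa [Set.Finite.mem_toFinset] at this

theorem hasSumset_of_hasBohr {N : ℕ} (hN : 0 < N) (S : Set (ZMod N)) (t : ℝ) (ht : 2 ≤ t)
    (h : HasBohr S t) : HasSumset S (26 * t) := by
  have : NeZero N := ⟨hN.ne'⟩
  obtain ⟨Γ, ε, hΓ, hε, hS⟩ := h
  obtain ⟨T, k, hT, hk, hsub⟩ := Pool.H84.IT.bohr_to_sumset t ht Γ ε hΓ hε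
  exact ⟨T, k, hT, hk, fun a b ha hb => hS _ (hsub a b ha hb)⟩

theorem hasBohr_of_hasSumset {N : ℕ} (hN : 0 < N) (S : Set (ZMod N)) (t : ℝ) (ht : 2 ≤ t)
    (h : HasSumset S t) : HasBohr S (26 * t) := by
  have : NeZero N := ⟨hN.ne'⟩
  obtain ⟨T, k, hT, hk, hS⟩ := h
  obtain ⟨Γ, ε, hΓ, hε, hsub⟩ := Pool.H84.IT.sumset_to_bohr t ht T hT k hk
  refine ⟨Γ, ε, hΓ, hε, fun x hx => ?_⟩
  obtain ⟨a, b, ha, hb, rfl⟩ := hsub x hx
  exact hS a b ha hb

theorem hasLarge_of_hasBohr {N : ℕ} (hN : 0 < N) (S : Set (ZMod N)) (t : ℝ) (ht : 2 ≤ t)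
    (h : HasBohr S t) : HasLarge S (26 * t) := by
  have : NeZero N := ⟨hN.ne'⟩
  obtain ⟨Γ, ε, hΓ, hε, hS⟩ := h
  have hP : ∀ x, x ∈ Pool.H77.SZ.bset Γ (fun _ => 1 / (8 * (26 * t))) ↔
      ∀ γ ∈ Γ, Pool.H84.CP.bn (γ * x) ≤ 1 / (8 * (26 * t)) := fun x => by
    rw [Pool.H77.SZ.mem_bset]
  obtain ⟨h1, h2⟩ := Pool.H77.SZ.bohr_to_size t ht Γ ε hΓ hε _ hP
  exact ⟨26 * t, Γ, fun _ => 1 / (8 * (26 * t)), _, by linarith, le_rfl, fun _ _ => le_rfl, hP, h1,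
    fun x hx => hS x (h2 x hx)⟩

theorem hasBohr_of_hasLarge {N : ℕ} (hN : 0 < N) (S : Set (ZMod N)) (t : ℝ) (ht : 2 ≤ t)
    (h : HasLarge S t) : HasBohr S (1560 * t) := by
  have : NeZero N := ⟨hN.ne'⟩
  obtain ⟨s, Γ, ε, P, hs, hst, hε, hP, hcard, hPS⟩ := h
  obtain ⟨Γ', ε', h1, h2, h3⟩ := Pool.H77.SZ.size_to_bohr s t hs hst Γ ε hε P hP hcard
  exact ⟨Γ', ε', h1, h2, fun x hx => hPS x (h3 x hx)⟩

theorem hasRelative_of_hasBohr {N : ℕ} (hN : 0 < N) (S : Set (ZMod N)) (t : ℝ) (ht : 2 ≤ t)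
    (h : HasBohr S t) : HasRelative S (26 * t) := by
  have : NeZero N := ⟨hN.ne'⟩
  obtain ⟨Γ, ε, hΓ, hε, hS⟩ := h
  obtain ⟨A, P, hA, ⟨Γ', ε', h1, h2, h3⟩, h4, h5⟩ := Pool.H77.SZ.bohr_to_rel t ht Γ ε hΓ hε
  refine ⟨A, P, hA, ⟨Γ', ε', h1, h2, fun x hx => ?_⟩, ?_, ?_⟩
  · exact Finset.mem_coe.2 (h3 x hx)
  · convert h4
  · intro a₁ h₁ a₂ h₂ a₃ h₃ a₄ h₄
    exact hS _ (h5 a₁ h₁ a₂ h₂ a₃ h₃ a₄ h₄)

/-- The quadratic theorem relative to a set `P` with `HasBohr P t`. -/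
theorem hasBohr_of_hasRelative : ∃ C : ℝ, 0 < C ∧ ∀ N : ℕ, 0 < N → ∀ (S : Set (ZMod N)) (t : ℝ),
    2 ≤ t → HasRelative S t → HasBohr S (C * t) := by
  refine ⟨2 * Pool.H15.RB.CR, by unfold Pool.H15.RB.CR; norm_num, ?_⟩
  intro N hN S t ht h
  have : NeZero N := ⟨hN.ne'⟩
  classical
  obtain ⟨A, P, hA, ⟨Γ, ε, hΓ, hε, hPB⟩, hAP, hS⟩ := h
  have hAP' := hAP
  obtain ⟨Γ', ε', h1, h2, h3⟩ := Pool.H15.RB.rel_bohr Γ P t (Real.sqrt t) ht (Real.sqrt_nonneg t) hΓ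
    (fun x hx => Finset.mem_coe.1 (hPB x fun γ hγ => (hx γ hγ).trans hε)) A hA hAP'
  have hsq : Real.sqrt t ^ 2 = t := Real.sq_sqrt (by linarith)
  have hC : Pool.H15.RB.CR * (t + Real.sqrt t ^ 2) = 2 * Pool.H15.RB.CR * t := by
    rw [hsq]
    ring
  rw [hC] at h1 h2
  refine ⟨Γ', ε', h1, h2, fun x hx => ?_⟩
  obtain ⟨a₁, g1, a₂, g2, a₃, g3, a₄, g4, rfl⟩ := h3 x hx
  exact hS a₁ g1 a₂ g2 a₃ g3 a₄ g4

theorem log_ge {N : ℕ} (hN : 0 < N) (A : Finset (ZMod N)) (hA : A.Nonempty)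
    (h : (A.card : ℝ) / (N : ℝ) ≤ 1 / 2) :
    2 / 3 ≤ Real.log ((N : ℝ) / (A.card : ℝ)) := by
  have hA0 : (0 : ℝ) < A.card := by exact_mod_cast hA.card_pos
  have hN0 : (0 : ℝ) < N := by exact_mod_cast hN
  have h1 : (2 : ℝ) ≤ (N : ℝ) / (A.card : ℝ) := by
    rw [le_div_iff₀ hA0]
    rw [div_le_iff₀ hN0] at h
    linarith
  have h2 : Real.log 2 ≤ Real.log ((N : ℝ) / (A.card : ℝ)) := Real.log_le_log (by norm_num) h1
  linarith [Real.log_two_gt_d9]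

/-! ### The form over the integers -/

theorem num_int (t0 u : ℝ) (h0 : 2 ≤ t0) (h1 : t0 ≤ u) (hu : 36 ≤ u) :
    36 * (2 * u) ^ (-(2 * u)) ≤ t0 ^ (-t0) := by
  have hu0 : 0 < 2 * u := by linarith
  have ht0 : 0 < t0 := by linarith
  have e1 : t0 ^ t0 ≤ (2 * u) ^ u :=
    (Real.rpow_le_rpow ht0.le (by linarith) ht0.le).trans
      (Real.rpow_le_rpow_of_exponent_le (by linarith) h1)
  have e2 : 36 ≤ (2 * u) ^ u := by
    have h2 : (2 * u) ^ (1 : ℝ) ≤ (2 * u) ^ u :=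
      Real.rpow_le_rpow_of_exponent_le (by linarith) (by linarith)
    rw [Real.rpow_one] at h2
    linarith
  have e3 : (2 * u) ^ (2 * u) = (2 * u) ^ u * (2 * u) ^ u := by
    rw [← Real.rpow_add hu0]
    congr 1
    ring
  have e4 : 36 * t0 ^ t0 ≤ (2 * u) ^ (2 * u) := by
    rw [e3]
    exact mul_le_mul e2 e1 (by positivity) (by positivity)
  rw [Real.rpow_neg hu0.le, Real.rpow_neg ht0.le, ← div_eq_mul_inv, div_le_iff₀ (by positivity),
    inv_mul_eq_div, le_div_iff₀ (by positivity)]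
  exact e4

theorem num_mod (t w L : ℝ) (ht : 2 ≤ t) (htw : t ≤ w) (hw : 4 ≤ w) (hL : L ≤ w) :
    (4 * w) ^ (-(4 * w)) * Real.exp L * 4 ≤ t ^ (-t) := by
  have hw0 : 0 < 4 * w := by linarith
  have ht0 : 0 < t := by linarith
  have e1 : t ^ t ≤ (4 * w) ^ w :=
    (Real.rpow_le_rpow ht0.le (by linarith) ht0.le).trans
      (Real.rpow_le_rpow_of_exponent_le (by linarith) htw)
  have e2 : 4 ≤ (4 * w) ^ w := by
    have h2 : (4 * w) ^ (1 : ℝ) ≤ (4 * w) ^ w :=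
      Real.rpow_le_rpow_of_exponent_le (by linarith) (by linarith)
    rw [Real.rpow_one] at h2
    linarith
  have e3 : Real.exp L ≤ (4 * w) ^ w := by
    rw [Real.rpow_def_of_pos hw0]
    refine Real.exp_le_exp.2 (hL.trans ?_)
    have h3 : 1 ≤ Real.log (4 * w) := by
      rw [Real.le_log_iff_exp_le hw0]
      have := Real.exp_one_lt_d9
      linarith
    have h4 : 1 * w ≤ Real.log (4 * w) * w := mul_le_mul_of_nonneg_right h3 (by linarith)
    linarith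
  have e4 : (4 * w) ^ (4 * w) = (4 * w) ^ w * (4 * w) ^ w * (4 * w) ^ w * (4 * w) ^ w := by
    rw [← Real.rpow_add hw0, ← Real.rpow_add hw0, ← Real.rpow_add hw0]
    congr 1
    ring
  have hp : 0 < (4 * w) ^ w := by positivity
  have e5 : Real.exp L * 4 * t ^ t ≤ (4 * w) ^ (4 * w) := by
    rw [e4]
    have h1 : Real.exp L * 4 ≤ (4 * w) ^ w * (4 * w) ^ w :=
      mul_le_mul e3 e2 (by norm_num) hp.le
    have h2 : Real.exp L * 4 * t ^ t ≤ (4 * w) ^ w * (4 * w) ^ w * (4 * w) ^ w :=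
      mul_le_mul h1 e1 (by positivity) (by positivity)
    have h3 : (4 * w) ^ w * (4 * w) ^ w * (4 * w) ^ w * 1 ≤
        (4 * w) ^ w * (4 * w) ^ w * (4 * w) ^ w * (4 * w) ^ w :=
      mul_le_mul_of_nonneg_left (by linarith) (by positivity)
    linarith
  rw [Real.rpow_neg hw0.le, Real.rpow_neg ht0.le, mul_assoc, inv_mul_eq_div,
    div_le_iff₀ (by positivity), inv_mul_eq_div, le_div_iff₀ (by positivity)]
  exact e5

theorem iso6_card {M : ℕ} (A : Finset ℤ) (φ : ℤ → ZMod M) (h : Pool.H15.RB.Iso6 A φ)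
    (hA : A.Nonempty) : (A.image φ).card = A.card := by
  classical
  obtain ⟨a₀, ha₀⟩ := hA
  refine Finset.card_image_of_injOn fun a ha b hb hab => ?_
  have h2 := (h ![a, a₀, a₀, a₀, a₀, a₀] ![b, a₀, a₀, a₀, a₀, a₀] (by
      intro i
      fin_cases i <;> first | exact ha | exact ha₀) (by
      intro i
      fin_cases i <;> first | exact hb | exact ha₀)).2 (by
      rw [Fin.sum_univ_six, Fin.sum_univ_six]
      simp [hab])
  rw [Fin.sum_univ_six, Fin.sum_univ_six] at h2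
  simpa using h2

/-- From progressions in `2A - 2A`, `A` dense in `Z_N`, to sets of integers of small doubling. -/
theorem int_of_gap (C : ℝ) (hC : 3 ≤ C)
    (h : ∀ N : ℕ, 0 < N → ∀ A : Finset (ZMod N), A.Nonempty → (A.card : ℝ) / (N : ℝ) ≤ 1 / 2 →
      HasGap (twoAA A) (C * Real.log ((N : ℝ) / (A.card : ℝ)))) (A : Finset ℤ) (hA : A.Nonempty)
    (K : ℝ) (hK : 2 ≤ K) (hAK : (((A ×ˢ A).image (fun p => p.1 + p.2)).card : ℝ) ≤ K * A.card) :
    HasGapInt (twoAAInt A) A.card (42 * C * Real.log K) := by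
  classical
  obtain ⟨M, hM, A₂, φ, hA₂A, hA₂ne, hc72, h2M, hMK, hφ⟩ :=
    Pool.H15.RB.int_model A hA K (by linarith) hAK
  have hM0 : 0 < M := Nat.pos_of_ne_zero hM.out
  have hMr : (0 : ℝ) < M := by exact_mod_cast hM0
  have hE := iso6_card A₂ φ hφ hA₂ne
  have hc₂ : (0 : ℝ) < A₂.card := by exact_mod_cast hA₂ne.card_pos
  have hdens : ((A₂.image φ).card : ℝ) / (M : ℝ) ≤ 1 / 2 := by
    rw [hE, div_le_iff₀ hMr]
    have : 2 * (A₂.card : ℝ) ≤ M := by exact_mod_cast h2M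
    linarith
  have hEne : (A₂.image φ).Nonempty := hA₂ne.image φ
  have hL := log_ge hM0 (A₂.image φ) hEne hdens
  obtain ⟨d, x, n, P, hd, hP, hcard, hPS⟩ := h M hM0 (A₂.image φ) hEne hdens
  rw [hE] at hd hcard hL
  obtain ⟨L, hLd⟩ : ∃ L, L = Real.log ((M : ℝ) / (A₂.card : ℝ)) := ⟨_, rfl⟩
  rw [← hLd] at hd hcard hL
  have hlogK : 2 / 3 ≤ Real.log K := by
    have h1 := Real.log_le_log (by norm_num) hK
    have h2 := Real.log_two_gt_d9
    linarith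
  have hLK : L ≤ 21 * Real.log K := by
    have h1 : (M : ℝ) / (A₂.card : ℝ) ≤ 216 * K ^ 12 := by
      rw [div_le_iff₀ hc₂]
      exact hMK
    have h2 := Real.log_le_log (by positivity) h1
    rw [Real.log_mul (by norm_num) (by positivity), Real.log_pow, ← hLd] at h2
    have h3 : Real.log 216 ≤ 6 := by
      rw [Real.log_le_iff_le_exp (by norm_num)]
      have h4 : Real.exp 6 = Real.exp 1 ^ 6 := by rw [← Real.exp_nat_mul]; norm_num
      rw [h4]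
      have h5 : (2.7 : ℝ) ≤ Real.exp 1 := by
        have := Real.exp_one_gt_d9
        linarith
      calc (216 : ℝ) ≤ 2.7 ^ 6 := by norm_num
        _ ≤ _ := pow_le_pow_left₀ (by norm_num) h5 6
    push_cast at h2
    linarith
  obtain ⟨y, hy1, hy2⟩ := Pool.H15.RB.int_gap A₂ φ hA₂ne hφ d x n (by
    intro m hm
    have h1 : (∑ k, (m k : ZMod M) * x k) ∈ P := by
      rw [hP]
      exact ⟨m, hm, rfl⟩
    exact hPS h1)
  obtain ⟨u, hu⟩ : ∃ u, u = 21 * C * Real.log K := ⟨_, rfl⟩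
  have hCL : 2 ≤ C * L := by
    have := mul_le_mul hC hL (by norm_num) (by linarith)
    linarith
  have hCu : C * L ≤ u := by
    have := mul_le_mul_of_nonneg_left hLK (by linarith : (0 : ℝ) ≤ C)
    rw [hu]
    linarith
  have hu36 : 36 ≤ u := by
    have h1 : 3 * (2 / 3) ≤ C * Real.log K := mul_le_mul hC hlogK (by norm_num) (by linarith)
    rw [hu]
    linarith
  have hu2 : 42 * C * Real.log K = 2 * u := by rw [hu]; ring
  rw [hu2]
  refine ⟨d, y, n, _, by linarith, rfl, ?_, ?_⟩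
  · have h1 := num_int (C * L) u hCL hCu hu36
    rw [hP] at hcard
    have h2 : ({h : ZMod M | ∃ m : Fin d → ℤ, (∀ k, |m k| ≤ (n k : ℤ)) ∧
        h = ∑ k, (m k : ZMod M) * x k}.ncard : ℝ) ≤
        ({g : ℤ | ∃ m : Fin d → ℤ, (∀ k, |m k| ≤ (n k : ℤ)) ∧ g = ∑ k, m k * y k}.ncard : ℝ) := by
      exact_mod_cast hy2
    refine le_trans ?_ (hcard.trans h2)
    have h3 : (A.card : ℝ) ≤ 36 * M := by
      have e1 : (A.card : ℝ) ≤ 72 * A₂.card := by exact_mod_cast hc72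
      have e2 : 2 * (A₂.card : ℝ) ≤ M := by exact_mod_cast h2M
      linarith
    have h4 : 0 ≤ (2 * u) ^ (-(2 * u)) := by positivity
    calc (2 * u) ^ (-(2 * u)) * (A.card : ℝ) ≤ (2 * u) ^ (-(2 * u)) * (36 * M) :=
          mul_le_mul_of_nonneg_left h3 h4
      _ = 36 * (2 * u) ^ (-(2 * u)) * M := by ring
      _ ≤ (C * L) ^ (-(C * L)) * M := mul_le_mul_of_nonneg_right h1 hMr.le
  · rintro g ⟨m, hm, rfl⟩
    obtain ⟨a₁, g₁, a₂, g₂, a₃, g₃, a₄, g₄, e⟩ := hy1 m hm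
    exact ⟨a₁, hA₂A g₁, a₂, hA₂A g₂, a₃, hA₂A g₃, a₄, hA₂A g₄, e⟩

/-- From sets of integers of small doubling to dense sets in `Z_N`. -/
theorem gap_of_int (C : ℝ) (hC : 3 ≤ C)
    (h : ∀ A : Finset ℤ, A.Nonempty → ∀ K : ℝ, 2 ≤ K →
      (((A ×ˢ A).image (fun p => p.1 + p.2)).card : ℝ) ≤ K * A.card →
      HasGapInt (twoAAInt A) A.card (C * Real.log K)) (N : ℕ) (hN : 0 < N)
    (A : Finset (ZMod N)) (hA : A.Nonempty) (hA2 : (A.card : ℝ) / (N : ℝ) ≤ 1 / 2) :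
    HasGap (twoAA A) (8 * C * Real.log ((N : ℝ) / (A.card : ℝ))) := by
  classical
  have : NeZero N := ⟨hN.ne'⟩
  have hNr : (0 : ℝ) < N := by exact_mod_cast hN
  have hc : (0 : ℝ) < A.card := by exact_mod_cast hA.card_pos
  have hlc := Pool.H15.RB.lift_card A
  have hls := Pool.H15.RB.lift_sum_card A
  obtain ⟨A₀, hA₀⟩ : ∃ A₀ : Finset ℤ, A₀ = A.image (fun a : ZMod N => (a.val : ℤ)) := ⟨_, rfl⟩
  have hA₀ne : A₀.Nonempty := by rw [hA₀]; exact hA.image _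
  have hL := log_ge hN A hA hA2
  obtain ⟨L, hLd⟩ : ∃ L, L = Real.log ((N : ℝ) / (A.card : ℝ)) := ⟨_, rfl⟩
  rw [← hLd] at hL ⊢
  have hNA : (2 : ℝ) ≤ (N : ℝ) / A.card := by
    rw [div_le_iff₀ hNr] at hA2
    rw [le_div_iff₀ hc]
    linarith
  have hL2 : Real.log 2 ≤ L := by
    rw [hLd]
    exact Real.log_le_log (by norm_num) hNA
  obtain ⟨d, x, n, P, hd, hP, hcard, hPS⟩ := h A₀ hA₀ne (2 * ((N : ℝ) / A.card)) (by linarith) (by
    have h1 : (((A₀ ×ˢ A₀).image (fun p => p.1 + p.2)).card : ℝ) ≤ 2 * N := by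
      rw [hA₀]
      exact_mod_cast hls
    refine h1.trans (le_of_eq ?_)
    rw [hA₀, hlc]
    field_simp)
  have hlogK : Real.log (2 * ((N : ℝ) / A.card)) = Real.log 2 + L := by
    rw [Real.log_mul (by norm_num) (by positivity), hLd]
  have hA₀c : (A₀.card : ℝ) = A.card := by
    rw [hA₀, hlc]
  rw [hlogK] at hd hcard
  rw [hA₀c] at hcard
  obtain ⟨t, ht⟩ : ∃ t, t = C * (Real.log 2 + L) := ⟨_, rfl⟩
  rw [← ht] at hd hcard
  obtain ⟨w, hw⟩ : ∃ w, w = 2 * C * L := ⟨_, rfl⟩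
  have hlog2 := Real.log_two_gt_d9
  have hC0 : 0 < C := by linarith
  have hCL : 3 * (2 / 3) ≤ C * L := mul_le_mul hC hL (by norm_num) hC0.le
  have ht2 : 2 ≤ t := by
    have h1 : 0 ≤ C * Real.log 2 := by positivity
    rw [ht, mul_add]
    linarith
  have htw : t ≤ w := by
    have h1 : C * Real.log 2 ≤ C * L := mul_le_mul_of_nonneg_left hL2 hC0.le
    rw [ht, hw, mul_add]
    linarith
  have hw4 : 4 ≤ w := by
    rw [hw]
    linarith
  have hLw : L ≤ w := by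
    have h1 : 3 * L ≤ C * L := mul_le_mul_of_nonneg_right hC (by linarith)
    rw [hw]
    linarith
  have hnum := num_mod t w L ht2 htw hw4 hLw
  obtain ⟨hm1, hm2⟩ := Pool.H15.RB.mod_gap A d x n (by
    intro m hm
    have h1 : (∑ k, m k * x k) ∈ P := by
      rw [hP]
      exact ⟨m, hm, rfl⟩
    have h2 := hPS h1
    rw [hA₀] at h2
    exact h2)
  have h8 : 8 * C * L = 4 * w := by rw [hw]; ring
  rw [h8]
  refine ⟨d, fun k => ((x k : ℤ) : ZMod N), n, _, by linarith, rfl, ?_, ?_⟩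
  · have h2 : ({g : ℤ | ∃ m : Fin d → ℤ, (∀ k, |m k| ≤ (n k : ℤ)) ∧
        g = ∑ k, m k * x k}.ncard : ℝ) ≤
        4 * ({h : ZMod N | ∃ m : Fin d → ℤ, (∀ k, |m k| ≤ (n k : ℤ)) ∧
          h = ∑ k, (m k : ZMod N) * ((x k : ℤ) : ZMod N)}.ncard : ℝ) := by
      exact_mod_cast hm2
    rw [hP] at hcard
    have h3 : (N : ℝ) = Real.exp L * A.card := by
      rw [hLd, Real.exp_log (by positivity)]
      field_simp
    have h4 : (4 * w) ^ (-(4 * w)) * (N : ℝ) * 4 ≤ t ^ (-t) * (A.card : ℝ) := by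
      rw [h3]
      calc (4 * w) ^ (-(4 * w)) * (Real.exp L * (A.card : ℝ)) * 4
          = ((4 * w) ^ (-(4 * w)) * Real.exp L * 4) * (A.card : ℝ) := by ring
        _ ≤ t ^ (-t) * (A.card : ℝ) := mul_le_mul_of_nonneg_right hnum hc.le
    linarith
  · rintro y ⟨m, hm, rfl⟩
    exact hm1 m hm

/-- For every set `S` in `Z_N` the six kinds of structure are equivalent up to absolute constants,
and so the question (first item of the list) is equivalent to its forms with them; it is also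
equivalent to its form over the integers (last item). -/
theorem result :
    (∃ C : ℝ, 0 < C ∧ ∀ N : ℕ, 0 < N → ∀ (S : Set (ZMod N)) (t : ℝ), 2 ≤ t →
      (HasBohr S t → HasGap S (26 * t)) ∧ (HasGap S t → HasConvex S t) ∧
        (HasConvex S t → HasBohr S (26 * t)) ∧
        (HasBohr S t → HasSumset S (26 * t)) ∧ (HasSumset S t → HasBohr S (26 * t)) ∧
        (HasBohr S t → HasLarge S (26 * t)) ∧ (HasLarge S t → HasBohr S (1560 * t)) ∧
        (HasBohr S t → HasRelative S (26 * t)) ∧ (HasRelative S t → HasBohr S (C * t))) ∧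
    List.TFAE [
      ∃ C : ℝ, 0 < C ∧ ∃ c : ℝ, 0 < c ∧
        ∀ N : ℕ, 0 < N → ∀ A : Finset (ZMod N), A.Nonempty →
          (A.card : ℝ) / (N : ℝ) ≤ 1 / 2 →
          ∃ Γ : Finset (ZMod N), ∃ ε : ℝ, 0 < ε ∧
            (Γ.card : ℝ) ≤ C * Real.log ((N : ℝ) / (A.card : ℝ)) ∧
            c / Real.log ((N : ℝ) / (A.card : ℝ)) ≤ ε ∧
            ∀ x : ZMod N,
              (∀ γ ∈ Γ,
                |((γ * x).val : ℝ) / (N : ℝ) -
                  ((round (((γ * x).val : ℝ) / (N : ℝ)) : ℤ) : ℝ)| ≤ ε) →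
              ∃ a₁ ∈ A, ∃ a₂ ∈ A, ∃ a₃ ∈ A, ∃ a₄ ∈ A, x = a₁ + a₂ - a₃ - a₄,
      ∃ C : ℝ, 3 ≤ C ∧ ∀ N : ℕ, 0 < N → ∀ A : Finset (ZMod N), A.Nonempty →
        (A.card : ℝ) / (N : ℝ) ≤ 1 / 2 →
        HasGap (twoAA A) (C * Real.log ((N : ℝ) / (A.card : ℝ))),
      ∃ C : ℝ, 3 ≤ C ∧ ∀ N : ℕ, 0 < N → ∀ A : Finset (ZMod N), A.Nonempty →
        (A.card : ℝ) / (N : ℝ) ≤ 1 / 2 →
        HasConvex (twoAA A) (C * Real.log ((N : ℝ) / (A.card : ℝ))),
      ∃ C : ℝ, 3 ≤ C ∧ ∀ N : ℕ, 0 < N → ∀ A : Finset (ZMod N), A.Nonempty →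
        (A.card : ℝ) / (N : ℝ) ≤ 1 / 2 →
        HasSumset (twoAA A) (C * Real.log ((N : ℝ) / (A.card : ℝ))),
      ∃ C : ℝ, 3 ≤ C ∧ ∀ N : ℕ, 0 < N → ∀ A : Finset (ZMod N), A.Nonempty →
        (A.card : ℝ) / (N : ℝ) ≤ 1 / 2 →
        HasLarge (twoAA A) (C * Real.log ((N : ℝ) / (A.card : ℝ))),
      ∃ C : ℝ, 3 ≤ C ∧ ∀ N : ℕ, 0 < N → ∀ A : Finset (ZMod N), A.Nonempty →
        (A.card : ℝ) / (N : ℝ) ≤ 1 / 2 →
        HasRelative (twoAA A) (C * Real.log ((N : ℝ) / (A.card : ℝ))),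
      ∃ C : ℝ, 3 ≤ C ∧ ∀ A : Finset ℤ, A.Nonempty → ∀ K : ℝ, 2 ≤ K →
        (((A ×ˢ A).image (fun p => p.1 + p.2)).card : ℝ) ≤ K * A.card →
        HasGapInt (twoAAInt A) A.card (C * Real.log K)] := by
  obtain ⟨C₀, hC₀, hrel⟩ := hasBohr_of_hasRelative
  refine ⟨⟨C₀, hC₀, fun N hN S t ht => ⟨hasGap_of_hasBohr hN S t ht, hasConvex_of_hasGap S t,
    hasBohr_of_hasConvex hN S t ht, hasSumset_of_hasBohr hN S t ht,
    hasBohr_of_hasSumset hN S t ht, hasLarge_of_hasBohr hN S t ht, hasBohr_of_hasLarge hN S t ht,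
    hasRelative_of_hasBohr hN S t ht, hrel N hN S t ht⟩⟩, ?_⟩
  have key : (∃ C : ℝ, 0 < C ∧ ∃ c : ℝ, 0 < c ∧
        ∀ N : ℕ, 0 < N → ∀ A : Finset (ZMod N), A.Nonempty →
          (A.card : ℝ) / (N : ℝ) ≤ 1 / 2 →
          ∃ Γ : Finset (ZMod N), ∃ ε : ℝ, 0 < ε ∧
            (Γ.card : ℝ) ≤ C * Real.log ((N : ℝ) / (A.card : ℝ)) ∧
            c / Real.log ((N : ℝ) / (A.card : ℝ)) ≤ ε ∧
            ∀ x : ZMod N,
              (∀ γ ∈ Γ,
                |((γ * x).val : ℝ) / (N : ℝ) -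
                  ((round (((γ * x).val : ℝ) / (N : ℝ)) : ℤ) : ℝ)| ≤ ε) →
              ∃ a₁ ∈ A, ∃ a₂ ∈ A, ∃ a₃ ∈ A, ∃ a₄ ∈ A, x = a₁ + a₂ - a₃ - a₄) ↔
      ∃ C : ℝ, 3 ≤ C ∧ ∀ N : ℕ, 0 < N → ∀ A : Finset (ZMod N), A.Nonempty →
        (A.card : ℝ) / (N : ℝ) ≤ 1 / 2 →
        HasBohr (twoAA A) (C * Real.log ((N : ℝ) / (A.card : ℝ))) := by
    constructor
    · rintro ⟨C, hC, c, hc, h⟩
      refine ⟨max 3 (max C (1 / c)), le_max_left _ _, ?_⟩
      intro N hN A hA hA2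
      obtain ⟨Γ, ε, hε, hΓ, hεL, hsub⟩ := h N hN A hA hA2
      have hL := log_ge hN A hA hA2
      set L := Real.log ((N : ℝ) / (A.card : ℝ)) with hLdef
      have hL0 : 0 < L := by linarith
      have h3 : (3 : ℝ) ≤ max 3 (max C (1 / c)) := le_max_left _ _
      have hCm : C ≤ max 3 (max C (1 / c)) := (le_max_left _ _).trans (le_max_right _ _)
      have hcm : 1 / c ≤ max 3 (max C (1 / c)) := (le_max_right _ _).trans (le_max_right _ _)
      refine ⟨Γ, ε, hΓ.trans (mul_le_mul_of_nonneg_right hCm hL0.le), le_trans ?_ hεL, hsub⟩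
      rw [div_le_div_iff₀ (by positivity) hL0]
      have h4 : 1 ≤ max 3 (max C (1 / c)) * c := by
        rw [div_le_iff₀ hc] at hcm
        exact hcm
      nlinarith
    · rintro ⟨C, hC, h⟩
      refine ⟨C, by linarith, 1 / C, by positivity, ?_⟩
      intro N hN A hA hA2
      have hL := log_ge hN A hA hA2
      obtain ⟨Γ, ε, h1, h2, h3⟩ := h N hN A hA hA2
      set L := Real.log ((N : ℝ) / (A.card : ℝ)) with hLdef
      have hL0 : 0 < L := by linarith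
      have hε : 0 < ε := lt_of_lt_of_le (by positivity) h2
      refine ⟨Γ, ε, hε, h1, le_trans (le_of_eq ?_) h2, h3⟩
      rw [div_div]
  have two : ∀ C : ℝ, 3 ≤ C → ∀ N : ℕ, 0 < N → ∀ A : Finset (ZMod N), A.Nonempty →
      (A.card : ℝ) / (N : ℝ) ≤ 1 / 2 → 2 ≤ C * Real.log ((N : ℝ) / (A.card : ℝ)) := by
    intro C hC N hN A hA hA2
    have hL := log_ge hN A hA hA2
    nlinarith
  tfae_have 1 → 2 := by
    rw [key]
    rintro ⟨C, hC, h⟩
    refine ⟨26 * C, by linarith, fun N hN A hA hA2 => ?_⟩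
    rw [mul_assoc]
    exact hasGap_of_hasBohr hN _ _ (two C hC N hN A hA hA2) (h N hN A hA hA2)
  tfae_have 2 → 3 := by
    rintro ⟨C, hC, h⟩
    exact ⟨C, hC, fun N hN A hA hA2 => hasConvex_of_hasGap _ _ (h N hN A hA hA2)⟩
  tfae_have 3 → 1 := by
    rw [key]
    rintro ⟨C, hC, h⟩
    refine ⟨26 * C, by linarith, fun N hN A hA hA2 => ?_⟩
    rw [mul_assoc]
    exact hasBohr_of_hasConvex hN _ _ (two C hC N hN A hA hA2) (h N hN A hA hA2)
  tfae_have 1 → 4 := by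
    rw [key]
    rintro ⟨C, hC, h⟩
    refine ⟨26 * C, by linarith, fun N hN A hA hA2 => ?_⟩
    rw [mul_assoc]
    exact hasSumset_of_hasBohr hN _ _ (two C hC N hN A hA hA2) (h N hN A hA hA2)
  tfae_have 4 → 1 := by
    rw [key]
    rintro ⟨C, hC, h⟩
    refine ⟨26 * C, by linarith, fun N hN A hA hA2 => ?_⟩
    rw [mul_assoc]
    exact hasBohr_of_hasSumset hN _ _ (two C hC N hN A hA hA2) (h N hN A hA hA2)
  tfae_have 1 → 5 := by
    rw [key]
    rintro ⟨C, hC, h⟩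
    refine ⟨26 * C, by linarith, fun N hN A hA hA2 => ?_⟩
    rw [mul_assoc]
    exact hasLarge_of_hasBohr hN _ _ (two C hC N hN A hA hA2) (h N hN A hA hA2)
  tfae_have 5 → 1 := by
    rw [key]
    rintro ⟨C, hC, h⟩
    refine ⟨1560 * C, by linarith, fun N hN A hA hA2 => ?_⟩
    rw [mul_assoc]
    exact hasBohr_of_hasLarge hN _ _ (two C hC N hN A hA hA2) (h N hN A hA hA2)
  tfae_have 1 → 6 := by
    rw [key]
    rintro ⟨C, hC, h⟩
    refine ⟨26 * C, by linarith, fun N hN A hA hA2 => ?_⟩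
    rw [mul_assoc]
    exact hasRelative_of_hasBohr hN _ _ (two C hC N hN A hA hA2) (h N hN A hA hA2)
  tfae_have 6 → 1 := by
    rw [key]
    rintro ⟨C, hC, h⟩
    have hmono : ∀ (N : ℕ) (S : Set (ZMod N)) (t t' : ℝ), 0 < t → t ≤ t' → HasBohr S t →
        HasBohr S t' := by
      rintro N S t t' ht htt ⟨Γ, ε, h1, h2, h3⟩
      exact ⟨Γ, ε, h1.trans htt, (one_div_le_one_div_of_le ht htt).trans h2, h3⟩
    refine ⟨max C₀ 1 * C, ?_, fun N hN A hA hA2 => ?_⟩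
    · have : 1 ≤ max C₀ 1 := le_max_right _ _
      nlinarith
    have h2 := two C hC N hN A hA hA2
    rw [mul_assoc]
    refine hmono N _ (C₀ * (C * Real.log ((N : ℝ) / (A.card : ℝ)))) _ (by positivity) ?_
      (hrel N hN _ _ h2 (h N hN A hA hA2))
    have : C₀ ≤ max C₀ 1 := le_max_left _ _
    gcongr
  tfae_have 2 → 7 := by
    rintro ⟨C, hC, h⟩
    exact ⟨42 * C, by linarith, fun A hA K hK hAK => int_of_gap C hC h A hA K hK hAK⟩
  tfae_have 7 → 2 := by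
    rintro ⟨C, hC, h⟩
    exact ⟨8 * C, by linarith, fun N hN A hA hA2 => gap_of_int C hC h N hN A hA hA2⟩
  tfae_finish

end Pool.Agent.Results.MP_169871_nt.ConvexProgressions
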