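import Pool.Agent.H77.LP.Fin

set_option autoImplicit false

/-!
# Bohr sets of popular elements of `2A - 2A`, in terms of the additive energy

`L = log (1/α)`, `Q = log (|A|^3 / E(A)) ≤ L`. For `K ≥ 17` and `0 < ε ≤ 1/8` there is a Bohr set of
radius `ε` with at most `C (1 + Q^2 l^2 + (L + Q^2 l^2 log (Q+2)) / log (1/ε))` frequencies,
`l = log (2 + Q/K)`, all of whose elements have at least `exp (-K) |A|^4 / N` representations
`a₁ + a₂ - a₃ - a₄`, `aᵢ ∈ A`.
-/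

namespace Pool.Agent.Results.MP_169871_nt.LocalPopular

/-- Main theorem. -/
theorem result :
    ∃ C : ℝ, 0 < C ∧
      ∀ N : ℕ, 0 < N → ∀ A : Finset (ZMod N), A.Nonempty →
        (A.card : ℝ) / (N : ℝ) ≤ 1 / 2 →
        ∀ L Q : ℝ, L = Real.log ((N : ℝ) / (A.card : ℝ)) →
          Q = Real.log ((A.card : ℝ) ^ 3 / (A.addEnergy A : ℝ)) →
          0 ≤ Q ∧ Q ≤ L ∧
          ∀ K : ℝ, 17 ≤ K → ∀ ε : ℝ, 0 < ε → ε ≤ 1 / 8 →
            ∃ Γ : Finset (ZMod N),
              (Γ.card : ℝ) ≤ C * (1 + Q ^ 2 * Real.log (2 + Q / K) ^ 2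
                + (L + Q ^ 2 * Real.log (2 + Q / K) ^ 2 * Real.log (Q + 2)) / Real.log (1 / ε)) ∧
              ∀ x : ZMod N,
                (∀ γ ∈ Γ,
                  |((γ * x).val : ℝ) / (N : ℝ) - ((round (((γ * x).val : ℝ) / (N : ℝ)) : ℤ) : ℝ)|
                    ≤ ε) →
                Real.exp (-K) * ((A.card : ℝ) ^ 4 / N) ≤
                  ((((A ×ˢ A) ×ˢ (A ×ˢ A)).filter
                    (fun p => p.1.1 + p.1.2 - p.2.1 - p.2.2 = x)).card : ℝ) :=
  Pool.H77.LP.local_pop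

end Pool.Agent.Results.MP_169871_nt.LocalPopular
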