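import Pool.Agent.H66.EP.Two

set_option autoImplicit false

/-!
Subspaces of popular elements of `2kA`, `A ⊆ F_2^n`: the exact order of the codimension.
-/

namespace Pool.Agent.Results.MP_169871_nt.PopularModel

/-- The popular form of the Bogolyubov problem in `F_2^n`, for sums of `2k` elements, `k ≥ 2`.
Write `r(v)` for the number of `x ∈ A^(2k)` with sum `v` and `L = log (2^n / |A|)`.

(1) For every nonempty `A ⊆ F_2^n` there is a subspace `V` of codimension at most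
`C * L^(k/(k-1))` with `r(v) ≥ (4/5) |A|^(2k) / 2^n` for all `v ∈ V`.

(2) For all `m ≥ 1` and `K ≥ 0` there are `n` and `A ⊆ F_2^n` of size `2^(n-m)` such that every
subspace `V` with `r(v) ≥ e^(-K) |A|^(2k) / 2^n` for all `v ∈ V` has codimension at least
`c * m^(k/(k-1)) / (K+1)^(1/(k-1))`.

The constants `C, c > 0` are absolute. -/
theorem result :
    (∃ C : ℝ, 0 < C ∧ ∀ k : ℕ, 2 ≤ k → ∀ n : ℕ, ∀ A : Finset (Fin n → ZMod 2), A.Nonempty →
      ∃ V : Submodule (ZMod 2) (Fin n → ZMod 2),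
        (n : ℝ) - Module.finrank (ZMod 2) V ≤
          C * (Real.log ((2 : ℝ) ^ n / A.card)) ^ ((k : ℝ) / ((k : ℝ) - 1)) ∧
        ∀ v ∈ V, (4 / 5) * (A.card : ℝ) ^ (2 * k) / (2 : ℝ) ^ n ≤
          ((Finset.univ.filter fun x : Fin (2 * k) → (Fin n → ZMod 2) =>
            (∀ i, x i ∈ A) ∧ ∑ i, x i = v).card : ℝ)) ∧
    (∃ c : ℝ, 0 < c ∧ ∀ k m : ℕ, 2 ≤ k → 1 ≤ m → ∀ K : ℝ, 0 ≤ K →
      ∃ (n : ℕ) (A : Finset (Fin n → ZMod 2)), A.card * 2 ^ m = 2 ^ n ∧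
        ∀ V : Submodule (ZMod 2) (Fin n → ZMod 2),
          (∀ v ∈ V, Real.exp (-K) * (A.card : ℝ) ^ (2 * k) / (2 : ℝ) ^ n ≤
            ((Finset.univ.filter fun x : Fin (2 * k) → (Fin n → ZMod 2) =>
              (∀ i, x i ∈ A) ∧ ∑ i, x i = v).card : ℝ)) →
          c * (m : ℝ) ^ ((k : ℝ) / ((k : ℝ) - 1)) ≤
            (K + 1) ^ (1 / ((k : ℝ) - 1)) * ((n : ℝ) - Module.finrank (ZMod 2) V)) :=
  ⟨Pool.Agent.H66.EP.main.1, Pool.Agent.H66.EP.main.2.1⟩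

end Pool.Agent.Results.MP_169871_nt.PopularModel
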